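import Pool.Agent.MP_c98b3a_gt.Defs

/-! The Yamabe constant of the conformal class of a Riemannian metric. -/

open scoped Manifold ContDiff
open MeasureTheory

namespace Pool.Agent.MP_c98b3a_gt.Yam

universe u

variable {ι : Type} [Fintype ι] [DecidableEq ι] {M : Type u} [TopologicalSpace M]
  [ChartedSpace (Euc ι) M] [IsManifold 𝓘(ℝ, Euc ι) ∞ M] [MeasurableSpace M]
  (g : Metrics 𝓘(ℝ, Euc ι) M)

/-- The Yamabe quotient `∫ (4 (m-1)/(m-2) |∇u|² + R u²) dV / (∫ u^{2m/(m-2)} dV)^{(m-2)/m}`, where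
`m = card ι` is the dimension. -/
noncomputable def yamQ (u : M → ℝ) : ℝ :=
  (∫ x, (4 * ((Fintype.card ι : ℝ) - 1) / ((Fintype.card ι : ℝ) - 2) * gradSqM g u x +
      scalM g x * u x ^ 2) ∂vol g) /
    (∫ x, u x ^ (2 * (Fintype.card ι : ℝ) / ((Fintype.card ι : ℝ) - 2)) ∂vol g) ^
      (((Fintype.card ι : ℝ) - 2) / (Fintype.card ι : ℝ))

/-- The Yamabe constant `Y(M, [g])`: the infimum of the quotient over smooth positive `u`. -/
noncomputable def yamabe : EReal :=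
  ⨅ (u : M → ℝ) (_ : ContMDiff 𝓘(ℝ, Euc ι) 𝓘(ℝ, ℝ) ∞ u) (_ : ∀ x, 0 < u x), (yamQ g u : EReal)

/-- The Yamabe constant `m (m-1) vol(S^m)^{2/m}` of the round `m`-sphere. -/
noncomputable def yamS (m : ℕ) : ℝ :=
  m * ((m : ℝ) - 1) *
    (2 * Real.pi ^ (((m : ℝ) + 1) / 2) / Real.Gamma (((m : ℝ) + 1) / 2)) ^ (2 / (m : ℝ))

end Pool.Agent.MP_c98b3a_gt.Yam
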