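import Mathlib.Analysis.SpecialFunctions.Gamma.Basic
import Mathlib.Analysis.SpecialFunctions.Integrals.Basic
import Mathlib.Analysis.Calculus.Deriv.Inverse
import Mathlib.Analysis.Calculus.Deriv.MeanValue
import Mathlib.MeasureTheory.Integral.IntegralEqImproper
import Mathlib.Topology.Order.MonotoneContinuity
import Mathlib.Analysis.Calculus.ParametricIntegral
import Mathlib.Analysis.SpecialFunctions.Gamma.BohrMollerup
import Mathlib.MeasureTheory.Integral.Prod
import Pool.Agent.MP_c98b3a_gt.Final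
import Pool.Agent.MP_c98b3a_gt.yam.Defs

section Part0

/-!
A one-dimensional transport inequality: a family of logarithmic Sobolev bounds along the ray of
test functions `exp (-c ρ)` integrates, against powers of `c`, to a Sobolev bound.
-/

open MeasureTheory Set Filter Topology

namespace Pool.Agent.MP_c98b3a_gt.Yam

section Prim

variable {g : ℝ → ℝ} (hg : Continuous g) (hpos : ∀ t, 0 < t → 0 < g t)
include hg

theorem prim_deriv (u : ℝ) : HasDerivAt (fun u => ∫ t in (0 : ℝ)..u, g t) (g u) u :=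
  (hg.integral_hasStrictDerivAt 0 u).hasDerivAt

theorem prim_cont : Continuous fun u => ∫ t in (0 : ℝ)..u, g t :=
  continuous_iff_continuousAt.2 fun u => (prim_deriv hg u).continuousAt

include hpos

theorem prim_mono : StrictMonoOn (fun u => ∫ t in (0 : ℝ)..u, g t) (Ici 0) := by
  refine strictMonoOn_of_deriv_pos (convex_Ici 0) (prim_cont hg).continuousOn fun x hx => ?_
  rw [interior_Ici] at hx
  rw [(prim_deriv hg x).deriv]
  exact hpos x hx

theorem prim_mem (hI : IntegrableOn g (Ioi 0)) {u : ℝ} (hu : 0 < u) :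
    (∫ t in (0 : ℝ)..u, g t) ∈ Ioo 0 (∫ t in Ioi 0, g t) := by
  have hm := prim_mono hg hpos
  constructor
  · simpa using hm (mem_Ici.2 le_rfl) hu.le hu
  · have h1 : (∫ t in (0 : ℝ)..u, g t) < ∫ t in (0 : ℝ)..(u + 1), g t :=
      hm hu.le (show (0 : ℝ) ≤ u + 1 by linarith) (by linarith)
    refine h1.trans_le (ge_of_tendsto (intervalIntegral_tendsto_integral_Ioi 0 hI tendsto_id) ?_)
    filter_upwards [eventually_ge_atTop (u + 1)] with b hb
    exact hm.monotoneOn (show (0 : ℝ) ≤ u + 1 by linarith) (show (0 : ℝ) ≤ b by linarith) hb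

theorem exists_inv (hI : IntegrableOn g (Ioi 0)) :
    ∃ S : ℝ → ℝ, ∀ v ∈ Ioo 0 (∫ t in Ioi 0, g t), 0 < S v ∧ ∫ t in (0 : ℝ)..S v, g t = v ∧
      HasDerivAt S (g (S v))⁻¹ v := by
  have hm := prim_mono hg hpos
  have hex : ∀ v ∈ Ioo 0 (∫ t in Ioi 0, g t), ∃ s, 0 < s ∧ ∫ t in (0 : ℝ)..s, g t = v := by
    intro v hv
    obtain ⟨b, hb, hb0⟩ := (((intervalIntegral_tendsto_integral_Ioi 0 hI tendsto_id).eventually
      (lt_mem_nhds hv.2)).and (eventually_ge_atTop (0 : ℝ))).exists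
    obtain ⟨s, hs, hsv⟩ := intermediate_value_Icc hb0 (prim_cont hg).continuousOn
      (show v ∈ Icc _ _ from ⟨by simpa using hv.1.le, hb.le⟩)
    refine ⟨s, lt_of_le_of_ne hs.1 ?_, hsv⟩
    rintro rfl
    exact hv.1.ne (by simpa using hsv)
  choose! S hS0 hS using hex
  refine ⟨S, fun v hv => ⟨hS0 v hv, hS v hv, ?_⟩⟩
  have hn : Ioo 0 (∫ t in Ioi 0, g t) ∈ 𝓝 v := isOpen_Ioo.mem_nhds hv
  have hmono : MonotoneOn S (Ioo 0 (∫ t in Ioi 0, g t)) := fun a ha b hb hab => by
    by_contra h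
    have := hm (hS0 b hb).le (hS0 a ha).le (not_le.1 h)
    simp only [hS a ha, hS b hb] at this
    exact absurd hab (not_le.2 this)
  have hc : ContinuousAt S v := by
    refine continuousAt_of_monotoneOn_of_image_mem_nhds hmono hn
      (mem_of_superset (Ioi_mem_nhds (hS0 v hv)) fun s hs => ?_)
    have h1 := prim_mem hg hpos hI hs
    exact ⟨_, h1, hm.injOn (hS0 _ h1).le (mem_Ici.2 (le_of_lt hs)) (hS _ h1)⟩
  exact HasDerivAt.of_local_left_inverse hc (prim_deriv hg _) (hpos _ (hS0 v hv)).ne'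
    (mem_of_superset hn fun y hy => hS y hy)

end Prim

/-- The model density `x^n e^{-x}`. -/
noncomputable def gam (n x : ℝ) : ℝ := Real.exp (-x) * x ^ n

theorem gam_cont {n : ℝ} (hn : 0 < n) : Continuous (gam n) :=
  (Real.continuous_exp.comp continuous_neg).mul (Real.continuous_rpow_const hn.le)

theorem gam_pos (n : ℝ) {x : ℝ} (hx : 0 < x) : 0 < gam n x := by
  unfold gam; positivity

theorem gam_deriv (n : ℝ) {x : ℝ} (hx : 0 < x) :
    HasDerivAt (gam n) ((n / x - 1) * gam n x) x := by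
  have h := ((hasDerivAt_neg x).exp).mul (Real.hasDerivAt_rpow_const (p := n) (Or.inl hx.ne'))
  refine HasDerivAt.congr_deriv h ?_
  unfold gam
  rw [Real.rpow_sub_one hx.ne']
  field_simp
  ring

theorem gam_int {n : ℝ} (hn : 0 < n) : IntegrableOn (gam n) (Ioi 0) := by
  have h := Real.GammaIntegral_convergent (s := n + 1) (by linarith)
  rw [add_sub_cancel_right] at h
  exact h

theorem gam_total {n : ℝ} (hn : 0 < n) : ∫ t in Ioi 0, gam n t = Real.Gamma (n + 1) := by
  rw [Real.Gamma_eq_integral (by linarith)]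
  simp [gam]

theorem gam_le {n x : ℝ} (hn : 0 < n) (hx : 0 < x) :
    ∫ t in (0 : ℝ)..x, gam n t ≤ x ^ (n + 1) ∧
      x * gam n x ≤ (n + 1) * ∫ t in (0 : ℝ)..x, gam n t := by
  have hi := (gam_cont hn).intervalIntegrable (μ := volume) 0 x
  constructor
  · have h := intervalIntegral.integral_mono_on (g := fun _ => x ^ n) hx.le hi
      intervalIntegrable_const fun t ht => by
        have h1 : Real.exp (-t) ≤ 1 := Real.exp_le_one_iff.2 (by linarith [ht.1])
        have h2 : t ^ n ≤ x ^ n := Real.rpow_le_rpow ht.1 ht.2 hn.le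
        have h3 : 0 ≤ t ^ n := Real.rpow_nonneg ht.1 _
        unfold gam
        nlinarith
    rw [Real.rpow_add_one hx.ne', mul_comm]
    simpa using h
  · have h := intervalIntegral.integral_mono_on (f := fun t => Real.exp (-x) * t ^ n) hx.le
      ((continuous_const.mul (Real.continuous_rpow_const hn.le)).intervalIntegrable 0 x) hi
      fun t ht => mul_le_mul_of_nonneg_right (Real.exp_le_exp.2 (by linarith [ht.2]))
        (Real.rpow_nonneg ht.1 _)
    rw [intervalIntegral.integral_const_mul, integral_rpow (Or.inl (by linarith)),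
      Real.zero_rpow (by linarith), Real.rpow_add_one hx.ne'] at h
    have e : x * gam n x = (n + 1) * (Real.exp (-x) * ((x ^ n * x - 0) / (n + 1))) := by
      unfold gam; field_simp; ring
    rw [e]
    exact mul_le_mul_of_nonneg_left h (by linarith)

theorem key_alg (j : ℕ) {n ν κ k c T Z P F : ℝ} (hn : n = (j + 1) / 2) (hκ : 0 < κ) (hk : 0 < k)
    (hc : 0 < c) (hT : 0 < T) (hZ : 0 < Z)
    (hA : ν + (j + 3) / 2 * Real.log k + Real.log κ = 0)
    (H : ν ≤ k * T / c ^ 2 * F / Z + c * P / Z + Real.log Z -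
      (j + 3) / 2 * Real.log (k * T / c ^ 2) - (j + 3)) :
    0 ≤ k * (c ^ j * F) - (n + 1) / n * (c ^ (j + 2) * Z) -
      ((n / T - 1) * gam n T * ((gam n T)⁻¹ * (κ * (c ^ (j + 2) * Z))) / (n * κ) +
        ((((j + 3 : ℕ) : ℝ) * c ^ (j + 2) * Z + c ^ (j + 3) * -P) * T -
          c ^ (j + 3) * Z * ((gam n T)⁻¹ * (κ * (c ^ (j + 2) * Z)))) / T ^ 2) := by
  have hg := gam_pos n hT
  have hn0 : 0 < n := by rw [hn]; positivity
  set r := κ * c ^ (j + 3) * Z / (gam n T * T) with hr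
  have hr0 : 0 < r := by positivity
  have hl : Real.log r = Real.log κ + (j + 3) * Real.log c + Real.log Z + T -
      (j + 3) / 2 * Real.log T := by
    rw [hr, Real.log_div (by positivity) (by positivity), Real.log_mul (by positivity) hZ.ne',
      Real.log_mul hκ.ne' (by positivity), Real.log_pow, Real.log_mul hg.ne' hT.ne', gam,
      Real.log_mul (by positivity) (by positivity), Real.log_exp, Real.log_rpow hT, hn]
    push_cast
    ring
  have hl2 : Real.log (k * T / c ^ 2) = Real.log k + Real.log T - 2 * Real.log c := by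
    rw [Real.log_div (by positivity) (by positivity), Real.log_mul hk.ne' hT.ne', Real.log_pow]
    push_cast
    ring
  have h1 := Real.log_le_sub_one_of_pos hr0
  have h2 : 0 ≤ k * T / c ^ 2 * F / Z + c * P / Z - T - 1 - (j + 3) + r := by
    rw [hl2] at H
    linarith
  have h3 := mul_nonneg (show 0 ≤ c ^ (j + 2) * Z / T by positivity) h2
  refine h3.trans_eq ?_
  rw [hr]
  push_cast
  field_simp
  ring

theorem small_bound (j : ℕ) {n κ z V c T Y Z : ℝ} (hn : n = (j + 1) / 2) (hκ : 0 < κ) (hz : 0 < z)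
    (hc : 0 < c) (hT : 0 < T) (hZ : Z ≤ V) (hV : 0 ≤ V) (hG : ∫ t in (0 : ℝ)..T, gam n t = κ * Y)
    (h1 : z * c ^ (j + 3) ≤ Y) (h2 : Y ≤ V * c ^ (j + 3)) :
    gam n T / (n * κ) + c ^ (j + 3) * Z / T ≤
      ((n + 1) / n + 1) * V / (κ * z) ^ (n + 1)⁻¹ * c ^ (j + 1) := by
  have hn0 : 0 < n := by rw [hn]; positivity
  obtain ⟨a, b⟩ := gam_le hn0 hT
  rw [hG] at a b
  set δ := (κ * z) ^ (n + 1)⁻¹ with hδ
  have hδ0 : 0 < δ := by positivity
  have hT2 : δ * c ^ 2 ≤ T := by
    refine (Real.rpow_le_rpow_iff (by positivity) hT.le (show 0 < n + 1 by linarith)).1 ?_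
    have e : (c ^ 2) ^ (n + 1) = c ^ (j + 3) := by
      rw [← Real.rpow_natCast, ← Real.rpow_natCast, ← Real.rpow_mul hc.le, hn]
      congr 1
      push_cast
      ring
    rw [Real.mul_rpow hδ0.le (by positivity), hδ,
      Real.rpow_inv_rpow (by positivity) (by linarith), e]
    nlinarith [mul_le_mul_of_nonneg_left h1 hκ.le]
  have h3 : gam n T / (n * κ) ≤ (n + 1) / n * (V * c ^ (j + 3)) / T := by
    rw [div_le_div_iff₀ (by positivity) hT]
    have e : (n + 1) / n * (V * c ^ (j + 3)) * (n * κ) = (n + 1) * (κ * (V * c ^ (j + 3))) := by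
      field_simp
    rw [e, mul_comm]
    exact b.trans (mul_le_mul_of_nonneg_left (mul_le_mul_of_nonneg_left h2 hκ.le) (by linarith))
  have h4 : c ^ (j + 3) * Z / T ≤ V * c ^ (j + 3) / T := by
    rw [mul_comm V]
    gcongr
  have h5 : ((n + 1) / n + 1) * (V * c ^ (j + 3)) / T ≤
      ((n + 1) / n + 1) * (V * c ^ (j + 3)) / (δ * c ^ 2) := by gcongr
  have e : ((n + 1) / n + 1) * (V * c ^ (j + 3)) / (δ * c ^ 2) =
      ((n + 1) / n + 1) * V / δ * c ^ (j + 1) := by
    field_simp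
    ring
  rw [← e]
  refine le_trans ?_ h5
  rw [add_mul, add_div, one_mul]
  exact add_le_add h3 h4

theorem oneD (j : ℕ) {Z P F : ℝ → ℝ} {ν : ℝ} (hZ : ∀ c, HasDerivAt Z (-P c) c)
    (hF : Continuous F) (h0 : ∀ c, 0 < Z c)
    (hIZ : IntegrableOn (fun c => c ^ (j + 2) * Z c) (Ioi 0))
    (hIF : IntegrableOn (fun c => c ^ j * F c) (Ioi 0))
    (H : ∀ c τ, 0 < c → 0 < τ → ν ≤ τ * F c / Z c + c * P c / Z c + Real.log (Z c) -
      (j + 3) / 2 * Real.log τ - (j + 3)) :
    (j + 3) / (j + 1) * (∫ c in Ioi 0, c ^ (j + 2) * Z c) *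
      Real.exp (2 / (j + 3) * (ν + Real.log
        (Real.Gamma ((j + 3) / 2) / ∫ c in Ioi 0, c ^ (j + 2) * Z c))) ≤
      ∫ c in Ioi 0, c ^ j * F c := by
  obtain ⟨n, hn⟩ : ∃ n : ℝ, n = (j + 1) / 2 := ⟨_, rfl⟩
  have hn0 : 0 < n := by rw [hn]; positivity
  have hZc : Continuous Z := continuous_iff_continuousAt.2 fun c => (hZ c).continuousAt
  have hw : Continuous fun c : ℝ => c ^ (j + 2) * Z c := (continuous_pow _).mul hZc
  have hw0 : ∀ c : ℝ, 0 < c → 0 < c ^ (j + 2) * Z c := fun c hc => mul_pos (pow_pos hc _) (h0 c)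
  have hf : Continuous fun c : ℝ => c ^ j * F c := (continuous_pow _).mul hF
  have hY := fun c (hc : 0 < c) => prim_mem hw hw0 hIZ hc
  set MZ := ∫ c in Ioi (0 : ℝ), c ^ (j + 2) * Z c with hMZ
  have hM : 0 < MZ := (hY 1 one_pos).1.trans (hY 1 one_pos).2
  have eΓ : ((j : ℝ) + 3) / 2 = n + 1 := by rw [hn]; ring
  have hΓ : 0 < Real.Gamma (n + 1) := Real.Gamma_pos_of_pos (by linarith)
  rw [eΓ]
  set κ := Real.Gamma (n + 1) / MZ with hκ
  have hκ0 : 0 < κ := div_pos hΓ hM
  set k := Real.exp (-(2 / (j + 3) * (ν + Real.log κ))) with hk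
  have hk0 : 0 < k := Real.exp_pos _
  have hA : ν + (j + 3) / 2 * Real.log k + Real.log κ = 0 := by
    rw [hk, Real.log_exp]
    field_simp
    ring
  obtain ⟨S, hS⟩ := exists_inv (gam_cont hn0) (fun t ht => gam_pos n ht) (gam_int hn0)
  rw [gam_total hn0] at hS
  set Y : ℝ → ℝ := fun u => ∫ c in (0 : ℝ)..u, c ^ (j + 2) * Z c with hYd
  have hS' := fun c (hc : 0 < c) => hS (κ * Y c) ⟨mul_pos hκ0 (hY c hc).1, by
    have := mul_lt_mul_of_pos_left (hY c hc).2 hκ0
    rwa [hκ, div_mul_cancel₀ _ hM.ne'] at this⟩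
  set T : ℝ → ℝ := fun c => S (κ * Y c) with hTd
  have hT : ∀ c, 0 < c → HasDerivAt T ((gam n (T c))⁻¹ * (κ * (c ^ (j + 2) * Z c))) c :=
    fun c hc => (hS' c hc).2.2.comp c ((prim_deriv hw c).const_mul κ)
  set B : ℝ → ℝ := fun c => gam n (T c) / (n * κ) + c ^ (j + 3) * Z c / T c with hBd
  set Ψ : ℝ → ℝ := fun c => k * (∫ t in (0 : ℝ)..c, t ^ j * F t) - (n + 1) / n * Y c - B c
    with hΨd
  have hΨ : ∀ c, 0 < c → ∃ d, 0 ≤ d ∧ HasDerivAt Ψ d c := fun c hc => by
    have hTc : 0 < T c := (hS' c hc).1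
    refine ⟨_, key_alg j hn hκ0 hk0 hc hTc (h0 c) hA (H c _ hc (by positivity)), ?_⟩
    exact (((prim_deriv hf c).const_mul k).sub ((prim_deriv hw c).const_mul _)).sub
      ((((gam_deriv n hTc).comp c (hT c hc)).div_const _).add
        (((hasDerivAt_pow (j + 3) c).mul (hZ c)).div (hT c hc) hTc.ne'))
  have hmono : MonotoneOn Ψ (Ioi 0) := by
    refine monotoneOn_of_deriv_nonneg (convex_Ioi 0) (fun c hc => ?_) (fun c hc => ?_)
      fun c hc => ?_
    · exact (hΨ c hc).choose_spec.2.continuousAt.continuousWithinAt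
    · rw [interior_Ioi] at hc
      exact (hΨ c hc).choose_spec.2.differentiableAt.differentiableWithinAt
    · rw [interior_Ioi] at hc
      rw [(hΨ c hc).choose_spec.2.deriv]
      exact (hΨ c hc).choose_spec.1
  have hB0 : ∀ c, 0 < c → 0 ≤ B c := fun c hc => by
    have h1 : 0 < T c := (hS' c hc).1
    have h2 := gam_pos n h1
    have h3 := h0 c
    simp only [hBd]
    positivity
  obtain ⟨x₁, -, h₁⟩ := isCompact_Icc.exists_isMinOn (nonempty_Icc.2 (zero_le_one' ℝ))
    hZc.continuousOn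
  obtain ⟨x₂, -, h₂⟩ := isCompact_Icc.exists_isMaxOn (nonempty_Icc.2 (zero_le_one' ℝ))
    hZc.continuousOn
  have hBl : Tendsto B (𝓝[>] 0) (𝓝 0) := by
    have hl : Tendsto (fun c : ℝ => ((n + 1) / n + 1) * Z x₂ /
        (κ * (Z x₁ / (j + 3))) ^ (n + 1)⁻¹ * c ^ (j + 1)) (𝓝[>] 0) (𝓝 0) := by
      refine tendsto_nhdsWithin_of_tendsto_nhds (Continuous.tendsto' (by fun_prop) _ _ (by simp))
    refine squeeze_zero' (mem_of_superset self_mem_nhdsWithin fun c hc => hB0 c hc) ?_ hl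
    filter_upwards [Ioc_mem_nhdsGT (zero_lt_one' ℝ)] with c hc
    have hz := h0 x₁
    have hi := hw.intervalIntegrable (μ := volume) 0 c
    refine small_bound j hn hκ0 (by positivity) hc.1 (hS' c hc.1).1 (h₂ ⟨hc.1.le, hc.2⟩) (h0 _).le
      (hS' c hc.1).2.1 ?_ ?_
    · have h := intervalIntegral.integral_mono_on (f := fun t => t ^ (j + 2) * Z x₁) hc.1.le
        (((continuous_pow _).mul continuous_const).intervalIntegrable 0 c) hi fun t ht =>
          mul_le_mul_of_nonneg_left (h₁ ⟨ht.1, ht.2.trans hc.2⟩) (pow_nonneg ht.1 _)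
      rw [intervalIntegral.integral_mul_const, integral_pow] at h
      refine le_of_eq_of_le ?_ h
      push_cast
      field_simp
      ring
    · have h := intervalIntegral.integral_mono_on (g := fun _ => c ^ (j + 2) * Z x₂) hc.1.le hi
        intervalIntegrable_const fun t ht =>
          mul_le_mul (pow_le_pow_left₀ ht.1 ht.2 _) (h₂ ⟨ht.1, ht.2.trans hc.2⟩) (h0 t).le
            (pow_nonneg hc.1.le _)
      refine h.trans_eq ?_
      simp
      ring
  have hΨl : Tendsto Ψ (𝓝[>] 0) (𝓝 0) := by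
    have h1 : Tendsto (fun c => k * (∫ t in (0 : ℝ)..c, t ^ j * F t) - (n + 1) / n * Y c)
        (𝓝[>] 0) (𝓝 0) :=
      tendsto_nhdsWithin_of_tendsto_nhds (Continuous.tendsto'
        ((continuous_const.mul (prim_cont hf)).sub (continuous_const.mul (prim_cont hw))) _ _
        (by simp))
    simpa using h1.sub hBl
  have hpos : ∀ c, 0 < c → (n + 1) / n * Y c ≤ k * ∫ t in (0 : ℝ)..c, t ^ j * F t := by
    intro c hc
    have h1 : 0 ≤ Ψ c := le_of_tendsto hΨl (by
      filter_upwards [Ioc_mem_nhdsGT hc] with e he using hmono he.1 hc he.2)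
    have h2 := hB0 c hc
    simp only [hΨd] at h1
    linarith
  have hfin : (n + 1) / n * MZ ≤ k * ∫ c in Ioi (0 : ℝ), c ^ j * F c :=
    le_of_tendsto_of_tendsto
      ((intervalIntegral_tendsto_integral_Ioi 0 hIZ tendsto_id).const_mul _)
      ((intervalIntegral_tendsto_integral_Ioi 0 hIF tendsto_id).const_mul _)
      (mem_of_superset (eventually_gt_atTop (0 : ℝ)) fun c hc => hpos c hc)
  have e1 : ((j : ℝ) + 3) / (j + 1) = (n + 1) / n := by
    rw [hn]
    field_simp
    ring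
  have e2 : Real.exp (2 / (j + 3) * (ν + Real.log κ)) = k⁻¹ := by
    rw [hk, Real.exp_neg, inv_inv]
  rw [e1, e2, ← div_eq_mul_inv, div_le_iff₀ hk0, mul_comm _ k]
  exact hfin

end Pool.Agent.MP_c98b3a_gt.Yam

end Part0

section Part1

/-! Gamma mixtures of the weights `exp (-c ρ)` on a compact space with a finite measure. -/

open MeasureTheory Set Filter Topology

set_option linter.unusedSectionVars false

namespace Pool.Agent.MP_c98b3a_gt.Yam

universe u

variable {M : Type u} [TopologicalSpace M] [T2Space M] [CompactSpace M] [MeasurableSpace M]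
  [BorelSpace M] (μ : Measure M) [IsFiniteMeasure μ]

/-- The Laplace transform `∫ φ exp (-c ρ)`. -/
noncomputable def lap (φ ρ : M → ℝ) (c : ℝ) : ℝ := ∫ x, φ x * Real.exp (-(c * ρ x)) ∂μ

theorem int_of_cont {f : M → ℝ} (hf : Continuous f) : Integrable f μ :=
  integrableOn_univ.1 (hf.continuousOn.integrableOn_compact isCompact_univ)

variable {φ ρ : M → ℝ} (hφ : Continuous φ) (hρ : Continuous ρ)
include hφ hρ

theorem lap_deriv (c : ℝ) : HasDerivAt (lap μ φ ρ) (-lap μ (fun x => φ x * ρ x) ρ c) c := by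
  have h := hasDerivAt_integral_of_dominated_loc_of_deriv_le (μ := μ) (x₀ := c)
    (F := fun c x => φ x * Real.exp (-(c * ρ x)))
    (F' := fun c x => -(φ x * ρ x * Real.exp (-(c * ρ x))))
    (bound := fun x => |φ x * ρ x| * Real.exp ((|c| + 1) * |ρ x|))
    (Metric.ball_mem_nhds c one_pos)
    (Eventually.of_forall fun c => Continuous.aestronglyMeasurable (by fun_prop))
    (int_of_cont μ (by fun_prop)) (Continuous.aestronglyMeasurable (by fun_prop))
    (ae_of_all _ fun x d hd => by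
      rw [norm_neg, norm_mul, Real.norm_eq_abs, Real.norm_eq_abs, Real.abs_exp]
      refine mul_le_mul_of_nonneg_left (Real.exp_le_exp.2 ((neg_le_abs _).trans ?_)) (abs_nonneg _)
      rw [abs_mul]
      refine mul_le_mul_of_nonneg_right ?_ (abs_nonneg _)
      have h1 : |d - c| < 1 := hd
      have h2 := abs_sub_abs_le_abs_sub d c
      linarith)
    (int_of_cont μ (by fun_prop))
    (ae_of_all _ fun x d _ => by
      refine HasDerivAt.congr_deriv
        ((((hasDerivAt_id' d).mul_const (ρ x)).fun_neg.exp).const_mul (φ x)) ?_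
      ring)
  have h2 := h.2
  rw [integral_neg] at h2
  exact h2

theorem lap_cont : Continuous (lap μ φ ρ) :=
  continuous_iff_continuousAt.2 fun c => (lap_deriv μ hφ hρ c).continuousAt

omit hφ hρ in
theorem gamma_int (k : ℕ) {r : ℝ} (hr : 0 < r) :
    ∫ c in Ioi (0 : ℝ), c ^ k * Real.exp (-(c * r)) = k.factorial * r⁻¹ ^ (k + 1) := by
  have h := Real.integral_rpow_mul_exp_neg_mul_Ioi (a := k + 1) (by positivity) hr
  rw [add_sub_cancel_right, Real.Gamma_nat_eq_factorial, one_div, ← Nat.cast_succ,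
    Real.rpow_natCast, mul_comm] at h
  rw [← h]
  simp only [Real.rpow_natCast, mul_comm r]

theorem lap_mix [Nonempty M] (h0 : ∀ x, 0 < ρ x) (k : ℕ) :
    IntegrableOn (fun c => c ^ k * lap μ φ ρ c) (Ioi 0) ∧
      ∫ c in Ioi (0 : ℝ), c ^ k * lap μ φ ρ c =
        k.factorial * ∫ x, φ x * (ρ x)⁻¹ ^ (k + 1) ∂μ := by
  obtain ⟨x₀, -, hx₀⟩ := isCompact_univ.exists_isMinOn univ_nonempty hρ.continuousOn
  have h1 : IntegrableOn (fun c : ℝ => c ^ k * Real.exp (-(c * ρ x₀))) (Ioi 0) :=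
    Integrable.of_integral_ne_zero (by
      have := h0 x₀
      rw [gamma_int k (h0 x₀)]
      positivity)
  have hI : Integrable (fun p : ℝ × M => p.1 ^ k * (φ p.2 * Real.exp (-(p.1 * ρ p.2))))
      ((volume.restrict (Ioi 0)).prod μ) := by
    have hφm := hφ.measurable
    have hρm := hρ.measurable
    refine (Integrable.mul_prod h1 (int_of_cont μ hφ.abs)).mono'
      (Measurable.aestronglyMeasurable (by fun_prop)) ?_
    filter_upwards [Measure.quasiMeasurePreserving_fst.ae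
      (ae_restrict_mem (μ := (volume : Measure ℝ)) (measurableSet_Ioi (a := (0 : ℝ))))] with p hp
    have hp0 : 0 < p.1 := hp
    rw [norm_mul, norm_mul, Real.norm_eq_abs, Real.norm_eq_abs, Real.norm_eq_abs, Real.abs_exp,
      abs_of_pos (pow_pos hp0 k), mul_assoc, mul_comm (Real.exp _)]
    refine mul_le_mul_of_nonneg_left (mul_le_mul_of_nonneg_left (Real.exp_le_exp.2 ?_)
      (abs_nonneg _)) (pow_pos hp0 k).le
    exact neg_le_neg (mul_le_mul_of_nonneg_left (hx₀ (mem_univ p.2)) hp0.le)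
  have e : (fun c => c ^ k * lap μ φ ρ c) =
      fun c : ℝ => ∫ x, c ^ k * (φ x * Real.exp (-(c * ρ x))) ∂μ := by
    funext c
    rw [integral_const_mul, lap]
  rw [e]
  refine ⟨hI.integral_prod_left, ?_⟩
  rw [integral_integral_swap hI, ← integral_const_mul]
  refine integral_congr_ae (ae_of_all _ fun x => ?_)
  simp only [mul_left_comm _ (φ x)]
  rw [integral_const_mul, gamma_int k (h0 x)]

omit hφ in
theorem lap_pos (hμ : μ ≠ 0) (c : ℝ) : 0 < lap μ (fun _ => 1) ρ c := by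
  have : NeZero μ := ⟨hμ⟩
  simp only [lap, one_mul]
  exact integral_exp_pos (int_of_cont μ (by fun_prop))

omit hφ hρ in
theorem log_sphere {s : ℝ} (hs : 0 < s) :
    Real.log (2 * Real.pi ^ (s + 1 / 2) / Real.Gamma (s + 1 / 2)) =
      s * Real.log (4 * Real.pi) + Real.log (Real.Gamma s) - Real.log (Real.Gamma (2 * s)) := by
  have h1 := Real.Gamma_pos_of_pos hs
  have h2 := Real.Gamma_pos_of_pos (show 0 < s + 1 / 2 by linarith)
  have h3 := Real.Gamma_pos_of_pos (show 0 < 2 * s by linarith)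
  have hp := Real.pi_pos
  have h := congrArg Real.log (Real.Gamma_mul_Gamma_add_half_of_pos hs)
  rw [Real.log_mul h1.ne' h2.ne', Real.log_mul (by positivity) (by positivity),
    Real.log_mul h3.ne' (by positivity), Real.log_rpow two_pos, Real.log_sqrt hp.le] at h
  rw [Real.log_div (by positivity) h2.ne', Real.log_mul two_ne_zero (by positivity),
    Real.log_rpow hp, Real.log_mul four_ne_zero hp.ne', show (4 : ℝ) = 2 ^ 2 by norm_num,
    Real.log_pow]
  push_cast
  linarith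

omit hφ in
/-- Logarithmic Sobolev bounds along `exp (-c ρ)` give the sharp Sobolev bound for `ρ`. -/
theorem mix_main [Nonempty M] (hμ : μ ≠ 0) (h0 : ∀ x, 0 < ρ x) (j : ℕ) {R G : M → ℝ}
    (hR : Continuous R) (hG : Continuous G) {a : ℝ}
    (H : ∀ c τ, 0 < c → 0 < τ → a ≤ τ * (lap μ R ρ c + c ^ 2 * lap μ G ρ c) /
      lap μ (fun _ => 1) ρ c + c * lap μ (fun x => 1 * ρ x) ρ c / lap μ (fun _ => 1) ρ c +
      Real.log (lap μ (fun _ => 1) ρ c) - (j + 3) / 2 * Real.log (4 * Real.pi * τ) - (j + 3)) :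
    (j + 3) * (j + 2) *
      (2 * Real.pi ^ (((j : ℝ) + 3 + 1) / 2) / Real.Gamma ((j + 3 + 1) / 2)) ^ (2 / (j + 3 : ℝ)) *
      Real.exp (2 * a / (j + 3)) * (∫ x, (ρ x)⁻¹ ^ (j + 3) ∂μ) ^ ((j + 1) / (j + 3 : ℝ)) ≤
      ∫ x, R x * (ρ x)⁻¹ ^ (j + 1) ∂μ + (j + 2) * (j + 1) * ∫ x, G x * (ρ x)⁻¹ ^ (j + 3) ∂μ := by
  obtain ⟨i1, e1⟩ := lap_mix μ (continuous_const (y := (1 : ℝ))) hρ h0 (j + 2)
  obtain ⟨i2, e2⟩ := lap_mix μ hR hρ h0 j
  obtain ⟨i3, e3⟩ := lap_mix μ hG hρ h0 (j + 2)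
  have e : (fun c : ℝ => c ^ j * (lap μ R ρ c + c ^ 2 * lap μ G ρ c)) =
      fun c => c ^ j * lap μ R ρ c + c ^ (j + 2) * lap μ G ρ c := by
    funext c
    ring
  have hp := Real.pi_pos
  have h := oneD j (ν := a + (j + 3) / 2 * Real.log (4 * Real.pi))
    (F := fun c => lap μ R ρ c + c ^ 2 * lap μ G ρ c)
    (lap_deriv μ (continuous_const (y := (1 : ℝ))) hρ)
    ((lap_cont μ hR hρ).add ((continuous_pow 2).mul (lap_cont μ hG hρ))) (lap_pos μ hρ hμ) i1
    (by rw [e]; exact i2.add i3) fun c τ hc hτ => by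
      have h := H c τ hc hτ
      rw [Real.log_mul (by positivity) hτ.ne'] at h
      linarith
  rw [e, integral_add i2 i3, e1, e2, e3] at h
  simp only [one_mul] at h
  have : NeZero μ := ⟨hμ⟩
  have hV : 0 < ∫ x, (ρ x)⁻¹ ^ (j + 3) ∂μ := by
    have : ∀ x, (ρ x)⁻¹ ^ (j + 3) = Real.exp (Real.log ((ρ x)⁻¹ ^ (j + 3))) := fun x =>
      (Real.exp_log (pow_pos (inv_pos.2 (h0 x)) _)).symm
    have hi : Integrable (fun x => (ρ x)⁻¹ ^ (j + 3)) μ :=
      int_of_cont μ ((hρ.inv₀ fun x => (h0 x).ne').pow (j + 3))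
    rw [funext this] at hi ⊢
    exact integral_exp_pos hi
  set V := ∫ x, (ρ x)⁻¹ ^ (j + 3) ∂μ with hVd
  have hf : (0 : ℝ) < j.factorial := by exact_mod_cast j.factorial_pos
  have ef : ((j + 2).factorial : ℝ) = (j + 2) * (j + 1) * j.factorial := by
    rw [Nat.factorial_succ, Nat.factorial_succ]
    push_cast
    ring
  have hΓ := Real.Gamma_pos_of_pos (show 0 < ((j : ℝ) + 3) / 2 by positivity)
  have hΓ' := Real.Gamma_pos_of_pos (show 0 < ((j : ℝ) + 3) / 2 + 1 / 2 by positivity)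
  have eΓ : Real.Gamma (2 * (((j : ℝ) + 3) / 2)) = (j + 2).factorial := by
    rw [← Real.Gamma_nat_eq_factorial]
    congr 1
    push_cast
    ring
  have hs := log_sphere (show 0 < ((j : ℝ) + 3) / 2 by positivity)
  rw [eΓ] at hs
  have hf2 : (0 : ℝ) < (j + 2).factorial := by exact_mod_cast (j + 2).factorial_pos
  rw [Real.log_div hΓ.ne' (by positivity), Real.log_mul hf2.ne' hV.ne'] at h
  rw [add_div ((j : ℝ) + 3) 1, Real.rpow_def_of_pos (by positivity), hs, Real.rpow_def_of_pos hV,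
    mul_assoc, mul_assoc, ← Real.exp_add, ← Real.exp_add]
  refine le_of_mul_le_mul_left ?_ hf
  have e4 : ∀ A B : ℝ, B = A + Real.log V →
      j.factorial * ((j + 3) * (j + 2) * Real.exp B) =
        (j + 3) / (j + 1) * ((j + 2).factorial * V) * Real.exp A := by
    rintro A B rfl
    rw [Real.exp_add, Real.exp_log hV, ef]
    field_simp
  refine (e4 _ _ ?_).trans_le (h.trans_eq ?_)
  · field_simp
    ring
  · rw [ef]
    ring

end Pool.Agent.MP_c98b3a_gt.Yam

end Part1

section Part2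

/-! Perelman's entropy bounds the Yamabe constant from below, with the sharp constant. -/

open scoped Manifold ContDiff Topology
open MeasureTheory Set Filter

set_option linter.unusedSectionVars false

namespace Pool.Agent.MP_c98b3a_gt.Yam

universe u

variable {ι : Type} [Fintype ι] [DecidableEq ι] {M : Type u} [TopologicalSpace M]
  [ChartedSpace (Euc ι) M] [IsManifold 𝓘(ℝ, Euc ι) ∞ M] (g : Metrics 𝓘(ℝ, Euc ι) M)

theorem gradSqM_comp {u : M → ℝ} (hu : ContMDiff 𝓘(ℝ, Euc ι) 𝓘(ℝ, ℝ) ∞ u) {h : ℝ → ℝ} {d : ℝ}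
    {x : M} (hh : HasDerivAt h d (u x)) :
    gradSqM g (fun p => h (u p)) x = d ^ 2 * gradSqM g u x := by
  have hx := mem_chart_source (Euc ι) x
  have h1 := dAt_of_cdOn (chartAt (Euc ι) x).open_target ((isChart_at x).cdOn hu)
    ((chartAt (Euc ι) x).map_source hx)
  have h2 : HasDerivAt h d ((u ∘ (chartAt (Euc ι) x).symm) (chartAt (Euc ι) x x)) := by
    simpa only [Function.comp, (chartAt (Euc ι) x).left_inv hx] using hh
  have h3 : ∀ i, pd i ((fun p => h (u p)) ∘ (chartAt (Euc ι) x).symm) (chartAt (Euc ι) x x) =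
      d * pd i (u ∘ (chartAt (Euc ι) x).symm) (chartAt (Euc ι) x x) := fun i =>
    congrArg (fun L : Euc ι →L[ℝ] ℝ => L (EuclideanSpace.single i 1))
      (h2.comp_hasFDerivAt _ h1.hasFDerivAt).fderiv
  simp only [gradSqM, gradSq, h3, Finset.mul_sum]
  exact Finset.sum_congr rfl fun i _ => Finset.sum_congr rfl fun j _ => by ring

variable [MeasurableSpace M] [BorelSpace M] [T2Space M] [CompactSpace M] [Nonempty M]

theorem vol_ne_zero : vol g ≠ 0 := by
  intro h0
  obtain ⟨x⟩ := ‹Nonempty M›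
  have h := isVolume_vol g x _ (chartAt (Euc ι) x).open_source.measurableSet Subset.rfl
  have n := gmat_nice g (isChart_at x)
  have hm := (chartAt (Euc ι) x).open_target.measurableSet
  rw [h0, (chartAt (Euc ι) x).image_source_eq_target, Measure.coe_zero, Pi.zero_apply, eq_comm,
    setLIntegral_eq_zero_iff' hm (n.dens_sm.continuousOn.aemeasurable hm).ennreal_ofReal] at h
  have h1 : ∀ᵐ y : Euc ι, y ∉ (chartAt (Euc ι) x).target := h.mono fun y hy hy' =>
    absurd (ENNReal.ofReal_eq_zero.1 (hy hy')) (not_le.2 (Real.sqrt_pos.2 (n.det_pos hy')))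
  exact ((chartAt (Euc ι) x).open_target.measure_pos volume
    ⟨_, mem_chart_target (Euc ι) x⟩).ne' (measure_eq_zero_iff_ae_notMem.2 h1)

theorem ray_test [IsFiniteMeasure (vol g)] {ρ : M → ℝ} (hρ : ContMDiff 𝓘(ℝ, Euc ι) 𝓘(ℝ, ℝ) ∞ ρ)
    {a c τ : ℝ} (ha : (a : EReal) ≤ entNu g) (hτ : 0 < τ) :
    a ≤ τ * (lap (vol g) (scalM g) ρ c + c ^ 2 * lap (vol g) (gradSqM g ρ) ρ c) /
      lap (vol g) (fun _ => 1) ρ c +
      c * lap (vol g) (fun x => 1 * ρ x) ρ c / lap (vol g) (fun _ => 1) ρ c +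
      Real.log (lap (vol g) (fun _ => 1) ρ c) -
      (Fintype.card ι : ℝ) / 2 * Real.log (4 * Real.pi * τ) - Fintype.card ι := by
  have hc := hρ.continuous
  have hZ := lap_pos (vol g) hc (vol_ne_zero g) c
  set Z := lap (vol g) (fun _ => 1) ρ c with hZd
  set m : ℝ := (Fintype.card ι : ℝ) with hm
  set C := Real.log Z - m / 2 * Real.log (4 * Real.pi * τ) with hC
  have hf : ContMDiff 𝓘(ℝ, Euc ι) 𝓘(ℝ, ℝ) ∞ fun x => c * ρ x + C :=
    ((contDiff_const.mul contDiff_id).add contDiff_const).contMDiff.comp hρ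
  have h4 : 0 < 4 * Real.pi * τ := by positivity
  have hd : ∀ x, (4 * Real.pi * τ) ^ (-m / 2) * Real.exp (-(c * ρ x + C)) =
      Real.exp (-(c * ρ x)) * Z⁻¹ := fun x => by
    rw [Real.rpow_def_of_pos h4, ← Real.exp_log (inv_pos.2 hZ), ← Real.exp_add, ← Real.exp_add,
      Real.log_inv, hC]
    congr 1
    ring
  have hg : ∀ x, gradSqM g (fun x => c * ρ x + C) x = c ^ 2 * gradSqM g ρ x := fun x =>
    gradSqM_comp g hρ (h := fun t => c * t + C)
      (by simpa using ((hasDerivAt_id' (ρ x)).const_mul c).add_const C)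
  have h1 : entNu g ≤ (entW g (fun x => c * ρ x + C) τ : EReal) :=
    iInf₂_le_of_le τ hτ (iInf_le_of_le (fun x => c * ρ x + C) (iInf_le_of_le hf
      (iInf_le_of_le (by
        simp only [← hm, hd, integral_mul_const]
        simp only [hZd, lap, one_mul] at hZ ⊢
        exact mul_inv_cancel₀ hZ.ne') le_rfl)))
  refine (EReal.coe_le_coe_iff.1 (ha.trans h1)).trans_eq ?_
  have hR := continuous_scalM g
  have hG := continuous_gradSqM g hρ
  have e : ∀ x, (τ * (scalM g x + c ^ 2 * gradSqM g ρ x) + (c * ρ x + C) - m) *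
      (Real.exp (-(c * ρ x)) * Z⁻¹) =
      τ / Z * (scalM g x * Real.exp (-(c * ρ x))) +
      τ * c ^ 2 / Z * (gradSqM g ρ x * Real.exp (-(c * ρ x))) +
      c / Z * (1 * ρ x * Real.exp (-(c * ρ x))) + (C - m) / Z * (1 * Real.exp (-(c * ρ x))) :=
    fun x => by ring
  simp only [entW, ← hm, hd, hg, e]
  rw [integral_add, integral_add, integral_add, integral_const_mul, integral_const_mul,
    integral_const_mul, integral_const_mul]
  · change τ / Z * lap (vol g) (scalM g) ρ c + τ * c ^ 2 / Z * lap (vol g) (gradSqM g ρ) ρ c +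
      c / Z * lap (vol g) (fun x => 1 * ρ x) ρ c + (C - m) / Z * Z = _
    rw [hC]
    field_simp
    ring
  all_goals exact integrable_vol g (by fun_prop)

theorem yam_bound (h3 : 3 ≤ Fintype.card ι) {a : ℝ} (ha : (a : EReal) ≤ entNu g) :
    ((yamS (Fintype.card ι) * Real.exp (2 * a / Fintype.card ι) : ℝ) : EReal) ≤ yamabe g := by
  refine le_iInf fun u => le_iInf fun hu => le_iInf fun h0 => EReal.coe_le_coe_iff.2 ?_
  obtain ⟨j, hj⟩ : ∃ j, Fintype.card ι = j + 3 := ⟨Fintype.card ι - 3, by omega⟩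
  have := finite_vol g
  have hm : (Fintype.card ι : ℝ) = j + 3 := by rw [hj]; push_cast; ring
  have hρ : ContMDiff 𝓘(ℝ, Euc ι) 𝓘(ℝ, ℝ) ∞ fun x => u x ^ (-2 / (j + 1 : ℝ)) := fun x =>
    (Real.contDiffAt_rpow_const_of_ne (h0 x).ne').contMDiffAt.comp x (hu x)
  have hρ0 : ∀ x, 0 < u x ^ (-2 / (j + 1 : ℝ)) := fun x => Real.rpow_pos_of_pos (h0 x) _
  have h := mix_main (vol g) hρ.continuous (vol_ne_zero g) hρ0 j (continuous_scalM g)
    (continuous_gradSqM g hρ) (a := a) fun c τ _ hτ => by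
      simpa only [hm] using ray_test g hρ (c := c) ha hτ
  have e0 : ∀ x (k : ℕ), (u x ^ (-2 / (j + 1 : ℝ)))⁻¹ ^ k = u x ^ (2 * k / (j + 1 : ℝ)) :=
    fun x k => by
      rw [← Real.rpow_neg (h0 x).le, ← Real.rpow_natCast, ← Real.rpow_mul (h0 x).le]
      congr 1
      ring
  have e1 : ∀ x, u x ^ (2 * ((j + 1 : ℕ) : ℝ) / (j + 1 : ℝ)) = u x ^ 2 := fun x => by
    rw [← Real.rpow_natCast]
    congr 1
    push_cast
    field_simp
  have e2 : ∀ x, gradSqM g (fun x => u x ^ (-2 / (j + 1 : ℝ))) x *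
      u x ^ (2 * ((j + 3 : ℕ) : ℝ) / (j + 1 : ℝ)) = 4 / (j + 1) ^ 2 * gradSqM g u x := fun x => by
    have e : (u x ^ (-2 / (j + 1 : ℝ) - 1)) ^ 2 *
        u x ^ (2 * ((j + 3 : ℕ) : ℝ) / (j + 1 : ℝ)) = 1 := by
      rw [← Real.rpow_natCast, ← Real.rpow_mul (h0 x).le, ← Real.rpow_add (h0 x)]
      refine Eq.trans ?_ (Real.rpow_zero (u x))
      congr 1
      push_cast
      field_simp
      ring
    rw [gradSqM_comp g hu (h := fun t => t ^ (-2 / (j + 1 : ℝ)))
      (Real.hasDerivAt_rpow_const (Or.inl (h0 x).ne')), mul_pow, mul_right_comm,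
      mul_assoc _ _ (_ ^ _), e]
    field_simp
    ring
  simp only [e0, e1, e2, integral_const_mul] at h
  have hu' := hu.continuous
  have hR := continuous_scalM g
  have hG := continuous_gradSqM g hu
  have hV : 0 < ∫ x, u x ^ (2 * ((j : ℝ) + 3) / (j + 1 : ℝ)) ∂vol g := by
    have : NeZero (vol g) := ⟨vol_ne_zero g⟩
    simp only [Real.rpow_def_of_pos (h0 _)]
    have hl : Continuous fun x => Real.log (u x) := hu'.log fun x => (h0 x).ne'
    exact integral_exp_pos (integrable_vol g (by fun_prop))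
  have s1 : (j : ℝ) + 3 - 1 = j + 2 := by ring
  have s2 : (j : ℝ) + 3 - 2 = j + 1 := by ring
  rw [yamQ, yamS, hm, s1, s2, le_div_iff₀ (Real.rpow_pos_of_pos hV _),
    integral_add (integrable_vol g (by fun_prop)) (integrable_vol g (by fun_prop)),
    integral_const_mul]
  push_cast at h
  refine h.trans_eq ?_
  field_simp
  ring

end Pool.Agent.MP_c98b3a_gt.Yam

end Part2
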